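import Mathlib
import Pool.Agent.Run7.h626.Kondo

/-!
# A coanalytic null-finite set without Borel null-finite hull

The group is `X = ℤ ^ ω`, `ℤ` discrete. Let `col : ℤ → ℕ` be a map all of whose fibres contain a
translate of every finite set, and `c : X → ω ^ ω`, `c x n = col (x (2 n))`. Every fibre of `c`
contains a translate of every null-sequence, since the coordinates of a null-sequence take
finitely many values. Let `U` be a universal analytic set. By the uniformization theorem of Novikov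
and Kondo there is a coanalytic set `A` which has at most one point in every fibre of `c`, and
which has a point `x ∉ U w` in the fibre over `w` if `U w` does not contain this fibre. `A` is
null-finite, because of the null-sequence of the unit vectors with odd index. If `B ⊇ A` is
Borel and `U w = B`, then `B` contains the fibre of `c` over `w`, so `B` is not null-finite.

Authors: helper115, helper626 (the uniformization theorem, `Pool.Agent.Run7.h626.Kondo`).
-/

namespace Pool.Agent.Results.MP_ceb5ee_gt.CoanalyticNoHull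

open Set Filter Topology MeasureTheory

/-- A set is null-finite if there is a sequence `s n → 0` such that for each `x` only finitely many
`n` satisfy `x + s n ∈ A`. -/
def NullFinite {X : Type*} [AddCommGroup X] [TopologicalSpace X] (A : Set X) : Prop :=
  ∃ s : ℕ → X, Tendsto s atTop (𝓝 0) ∧ ∀ x : X, {n | x + s n ∈ A}.Finite

/-! ### a universal analytic set -/

/-- codes for the open sets of a second countable space -/
lemma exists_codes (P : Type) [TopologicalSpace P] [SecondCountableTopology P] :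
    ∃ V : ℕ → Set P, (∀ n, IsOpen (V n)) ∧
      ∀ O : Set P, IsOpen O → ∃ w : ℕ → ℕ, O = ⋃ n, V (w n) := by
  obtain ⟨b, hbc, -, hb⟩ := TopologicalSpace.exists_countable_basis P
  obtain ⟨V, hV⟩ := (hbc.insert ∅).exists_eq_range (insert_nonempty _ _)
  have hVb : ∀ n, V n ∈ insert ∅ b := fun n => by rw [hV]; exact mem_range_self n
  refine ⟨V, fun n => ?_, fun O hO => ?_⟩
  · rcases hVb n with h | h
    · rw [h]; exact isOpen_empty
    · exact hb.isOpen h
  · have hne : {m | V m ⊆ O}.Nonempty := by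
      have h0 : ∅ ∈ insert ∅ b := mem_insert _ _
      rw [hV] at h0
      obtain ⟨m, hm⟩ := h0
      exact ⟨m, by rw [mem_ofPred_eq, hm]; exact empty_subset _⟩
    obtain ⟨w, hw⟩ := (to_countable {m | V m ⊆ O}).exists_eq_range hne
    refine ⟨w, subset_antisymm (fun x hx => ?_) (iUnion_subset fun n => ?_)⟩
    · obtain ⟨v, hv, hxv, hvO⟩ := hb.exists_subset_of_mem_open hx hO
      have h1 : v ∈ insert ∅ b := mem_insert_of_mem _ hv
      rw [hV] at h1
      obtain ⟨m, rfl⟩ := h1
      have h2 : m ∈ {m | V m ⊆ O} := hvO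
      rw [hw] at h2
      obtain ⟨n, rfl⟩ := h2
      exact mem_iUnion.2 ⟨n, hxv⟩
    · have h2 : w n ∈ {m | V m ⊆ O} := by rw [hw]; exact mem_range_self n
      exact h2

/-- a universal analytic set -/
lemma exists_universal : ∃ U : Set ((ℕ → ℕ) × (ℕ → ℕ)), AnalyticSet U ∧
    ∀ B : Set (ℕ → ℕ), AnalyticSet B → ∃ w : ℕ → ℕ, ∀ z, (w, z) ∈ U ↔ z ∈ B := by
  obtain ⟨V, hVo, hV⟩ := exists_codes ((ℕ → ℕ) × (ℕ → ℕ))
  let F : Set ((ℕ → ℕ) × ((ℕ → ℕ) × (ℕ → ℕ))) := {q | ∀ n, q.2 ∉ V (q.1 n)}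
  have hF : IsClosed F := by
    have h1 : Fᶜ = ⋃ n, ⋃ m, {q : (ℕ → ℕ) × ((ℕ → ℕ) × (ℕ → ℕ)) | q.1 n = m ∧ q.2 ∈ V m} := by
      ext q
      simp only [F, mem_compl_iff, mem_ofPred_eq, not_forall, not_not, mem_iUnion]
      constructor
      · rintro ⟨n, hn⟩
        exact ⟨n, q.1 n, rfl, hn⟩
      · rintro ⟨n, m, hm, hq⟩
        exact ⟨n, by rw [hm]; exact hq⟩
    rw [← isOpen_compl_iff, h1]
    refine isOpen_iUnion fun n => isOpen_iUnion fun m => ?_
    have h2 : IsOpen {q : (ℕ → ℕ) × ((ℕ → ℕ) × (ℕ → ℕ)) | q.1 n = m} :=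
      (isOpen_discrete ({m} : Set ℕ)).preimage
        (f := fun q : (ℕ → ℕ) × ((ℕ → ℕ) × (ℕ → ℕ)) => q.1 n) (by fun_prop)
    exact h2.inter ((hVo m).preimage continuous_snd)
  refine ⟨(fun q : (ℕ → ℕ) × ((ℕ → ℕ) × (ℕ → ℕ)) => (q.1, q.2.1)) '' F,
    hF.analyticSet.image_of_continuous (by fun_prop), fun B hB => ?_⟩
  obtain ⟨C, hC, hCB⟩ : ∃ C : Set ((ℕ → ℕ) × (ℕ → ℕ)), IsClosed C ∧
      ∀ z, z ∈ B ↔ ∃ y, (z, y) ∈ C := by
    rw [AnalyticSet] at hB
    rcases hB with rfl | ⟨f, hf, rfl⟩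
    · exact ⟨∅, isClosed_empty, fun z => by simp⟩
    · refine ⟨{q | f q.2 = q.1}, isClosed_eq (hf.comp continuous_snd) continuous_fst, fun z => ?_⟩
      rfl
  obtain ⟨w, hw⟩ := hV Cᶜ hC.isOpen_compl
  refine ⟨w, fun z => ?_⟩
  rw [hCB]
  constructor
  · rintro ⟨q, hq, he⟩
    obtain ⟨rfl, rfl⟩ := Prod.ext_iff.1 he
    refine ⟨q.2.2, ?_⟩
    by_contra hn
    have h1 : q.2 ∈ Cᶜ := hn
    rw [hw] at h1
    obtain ⟨n, hn'⟩ := mem_iUnion.1 h1
    exact hq n hn'
  · rintro ⟨y, hy⟩
    refine ⟨(w, (z, y)), fun n hn => ?_, rfl⟩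
    have h1 : (z, y) ∈ Cᶜ := by
      rw [hw]
      exact mem_iUnion.2 ⟨n, hn⟩
    exact h1 hy

/-! ### the colouring -/

/-- a map all of whose fibres contain a translate of every finite set -/
def col (z : ℤ) : ℕ := (Nat.unpair (Nat.log 2 z.toNat)).1

lemma exists_translate (a : ℕ) (S : Set ℤ) (hS : S.Finite) : ∃ u : ℤ, ∀ s ∈ S, col (u + s) = a := by
  obtain ⟨M, hM⟩ : ∃ M : ℕ, ∀ s ∈ S, |s| ≤ M := by
    obtain ⟨K, hK⟩ := (hS.image fun s => s.natAbs).bddAbove
    refine ⟨K, fun s hs => ?_⟩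
    have := hK ⟨s, hs, rfl⟩
    rw [Int.abs_eq_natAbs]
    exact_mod_cast this
  obtain ⟨j, hj⟩ : ∃ j : ℕ, j = Nat.pair a (2 * M) := ⟨_, rfl⟩
  have hj1 : 2 * M ≤ j := by rw [hj]; exact Nat.right_le_pair _ _
  have hj2 : 2 * M < 2 ^ j := lt_of_le_of_lt hj1 Nat.lt_two_pow_self
  refine ⟨((2 ^ j + M : ℕ) : ℤ), fun s hs => ?_⟩
  have h1 := abs_le.1 (hM s hs)
  obtain ⟨m, hm⟩ : ∃ m : ℕ, ((2 ^ j + M : ℕ) : ℤ) + s = m := by
    refine ⟨(((2 ^ j + M : ℕ) : ℤ) + s).toNat, ?_⟩
    rw [Int.toNat_of_nonneg]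
    push_cast
    have : (0 : ℤ) ≤ 2 ^ j := by positivity
    linarith [h1.1]
  have h2 : 2 ^ j ≤ m := by
    have : ((2 ^ j : ℕ) : ℤ) ≤ m := by
      rw [← hm]
      push_cast
      linarith [h1.1]
    exact_mod_cast this
  have h3 : m < 2 ^ (j + 1) := by
    have h4 : (m : ℤ) ≤ ((2 ^ j + 2 * M : ℕ) : ℤ) := by
      rw [← hm]
      push_cast
      linarith [h1.2]
    have h5 : m ≤ 2 ^ j + 2 * M := by exact_mod_cast h4
    rw [pow_succ]
    omega
  unfold col
  rw [hm, Int.toNat_natCast, Nat.log_eq_of_pow_le_of_lt_pow h2 h3, hj, Nat.unpair_pair]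

/-- the colouring of `ℤ ^ ω` -/
def c (x : ℕ → ℤ) : ℕ → ℕ := fun n => col (x (2 * n))

lemma continuous_c : Continuous c := by
  refine continuous_pi fun n => ?_
  exact (continuous_of_discreteTopology (f := col)).comp (continuous_apply (2 * n))

/-- every fibre of `c` contains a translate of every null-sequence -/
lemma fibre (w : ℕ → ℕ) (s : ℕ → ℕ → ℤ) (hs : Tendsto s atTop (𝓝 0)) :
    ∃ x : ℕ → ℤ, ∀ n, c (x + s n) = w := by
  have hfin : ∀ k, (range fun n => s n k).Finite := by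
    intro k
    have h1 : Tendsto (fun n => s n k) atTop (𝓝 0) := by
      have := (tendsto_pi_nhds.1 hs) k
      simpa using this
    rw [nhds_discrete, tendsto_pure] at h1
    obtain ⟨n0, hn0⟩ := eventually_atTop.1 h1
    refine ((Set.finite_lt_nat n0).image (fun n => s n k) |>.insert 0).subset ?_
    rintro _ ⟨n, rfl⟩
    rcases lt_or_ge n n0 with h | h
    · exact Or.inr ⟨n, h, rfl⟩
    · exact Or.inl (hn0 n h)
  choose u hu using fun k : ℕ => exists_translate (w k) _ (hfin (2 * k))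
  refine ⟨fun n => u (n / 2), fun n => ?_⟩
  funext k
  show col (u (2 * k / 2) + s n (2 * k)) = w k
  rw [Nat.mul_div_cancel_left _ (by norm_num)]
  exact hu k _ ⟨n, rfl⟩

/-! ### the set -/

/-- the homeomorphism between `ℤ ^ ω` and `ω ^ ω` -/
def e (x : ℕ → ℤ) : ℕ → ℕ := fun n => Equiv.intEquivNat (x n)

/-- its inverse -/
def g (z : ℕ → ℕ) : ℕ → ℤ := fun n => Equiv.intEquivNat.symm (z n)

lemma g_e (x : ℕ → ℤ) : g (e x) = x := by
  funext n
  exact Equiv.symm_apply_apply _ _

lemma e_g (z : ℕ → ℕ) : e (g z) = z := by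
  funext n
  exact Equiv.apply_symm_apply _ _

lemma continuous_e : Continuous e :=
  continuous_pi fun n => (continuous_of_discreteTopology (f := Equiv.intEquivNat)).comp
    (continuous_apply n)

lemma continuous_g : Continuous g :=
  continuous_pi fun n => (continuous_of_discreteTopology (f := Equiv.intEquivNat.symm)).comp
    (continuous_apply n)

/-- **Negative answer to Q2.** In the Polish group `ℤ ^ ω` there is a coanalytic null-finite set
which is not contained in any Borel null-finite set. -/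
theorem main : ∃ A : Set (ℕ → ℤ), AnalyticSet Aᶜ ∧ NullFinite A ∧
    ∀ B : Set (ℕ → ℤ), @MeasurableSet _ (borel (ℕ → ℤ)) B → A ⊆ B → ¬ NullFinite B := by
  obtain ⟨U, hU, hUB⟩ := exists_universal
  let Q : Set ((ℕ → ℕ) × (ℕ → ℕ)) := {q | c (g q.2) = q.1 ∧ q ∉ U}
  have hQ : AnalyticSet Qᶜ := by
    have h1 : Qᶜ = {q | c (g q.2) = q.1}ᶜ ∪ U := by
      ext q
      simp only [Q, mem_compl_iff, mem_ofPred_eq, mem_union]
      tauto
    rw [h1]
    refine Run7.h626.an_union ?_ hU
    have h2 : IsClosed {q : (ℕ → ℕ) × (ℕ → ℕ) | c (g q.2) = q.1} :=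
      isClosed_eq (continuous_c.comp (continuous_g.comp continuous_snd)) continuous_fst
    borelize ((ℕ → ℕ) × (ℕ → ℕ))
    exact h2.measurableSet.compl.analyticSet
  obtain ⟨Q', hQ'Q, hQ'a, hQ'u, hQ't⟩ := Run7.h626.kondo hQ
  refine ⟨{x | (c x, e x) ∈ Q'}, ?_, ?_, fun B hB hAB hNF => ?_⟩
  · exact hQ'a.preimage (continuous_c.prodMk continuous_e)
  · -- null-finite
    refine ⟨fun m => Pi.single (2 * m + 1) 1, ?_, fun x => ?_⟩
    · rw [tendsto_pi_nhds]
      intro k
      refine tendsto_const_nhds.congr' ?_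
      filter_upwards [eventually_ge_atTop k] with m hm
      rw [Pi.single_apply, if_neg (by omega)]
      rfl
    · refine Set.Subsingleton.finite fun m hm m' hm' => ?_
      have hcx : ∀ m : ℕ, c (x + Pi.single (2 * m + 1) 1) = c x := by
        intro m
        funext n
        show col (x (2 * n) + (Pi.single (2 * m + 1) 1 : ℕ → ℤ) (2 * n)) = col (x (2 * n))
        rw [Pi.single_apply, if_neg (by omega), add_zero]
      have h1 : (c (x + Pi.single (2 * m + 1) 1), e (x + Pi.single (2 * m + 1) 1)) ∈ Q' := hm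
      have h2 : (c (x + Pi.single (2 * m' + 1) 1), e (x + Pi.single (2 * m' + 1) 1)) ∈ Q' := hm'
      rw [hcx] at h1 h2
      have h3 := hQ'u _ _ _ h1 h2
      have h4 := congrArg g h3
      rw [g_e, g_e] at h4
      have h5 := congrFun (add_left_cancel h4) (2 * m + 1)
      rw [Pi.single_eq_same, Pi.single_apply] at h5
      by_contra hne
      rw [if_neg (by omega)] at h5
      exact one_ne_zero h5
  · -- no Borel hull
    obtain ⟨s, hs, hfin⟩ := hNF
    borelize (ℕ → ℤ)
    have hBa : AnalyticSet (g ⁻¹' B) := by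
      borelize (ℕ → ℕ)
      exact (continuous_g.measurable hB).analyticSet
    obtain ⟨w, hw⟩ := hUB _ hBa
    have hsub : ∀ x, c x = w → x ∈ B := by
      intro x hx
      by_contra hxB
      have h1 : (w, e x) ∈ Q := by
        refine ⟨by rw [g_e]; exact hx, fun h => hxB ?_⟩
        have := (hw _).1 h
        rwa [mem_preimage, g_e] at this
      obtain ⟨z', hz'⟩ := hQ't _ _ h1
      have h2 := hQ'Q hz'
      have h3 : g z' ∈ {x | (c x, e x) ∈ Q'} := by
        show (c (g z'), e (g z')) ∈ Q'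
        rw [e_g]
        have : c (g z') = w := h2.1
        rw [this]
        exact hz'
      exact h2.2 ((hw _).2 (hAB h3))
    obtain ⟨x, hx⟩ := fibre w s hs
    refine Set.infinite_univ ((hfin x).subset fun n _ => ?_)
    exact hsub _ (hx n)

/-- **Negative answer to Q2.** There are a Polish group `X` and a coanalytic null-finite set
`A ⊆ X` which is not contained in any Borel null-finite set. -/
theorem result : ∃ (X : Type) (_ : AddCommGroup X) (_ : TopologicalSpace X)
    (_ : IsTopologicalAddGroup X) (_ : PolishSpace X) (A : Set X), AnalyticSet Aᶜ ∧ NullFinite A ∧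
    ∀ B : Set X, @MeasurableSet X (borel X) B → A ⊆ B → ¬ NullFinite B :=
  ⟨ℕ → ℤ, inferInstance, inferInstance, inferInstance, inferInstance, main⟩

end Pool.Agent.Results.MP_ceb5ee_gt.CoanalyticNoHull
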